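import Pool.Agent.VREX.Est

open MeasureTheory Set Filter Topology
open scoped RealInnerProductSpace ENNReal

noncomputable section

namespace Pool.Agent.VREV

variable {n : ℕ}

lemma contact_est (p : ℕ) (V : ℕ → Piece n) {δ a lam : ℝ} (ha : 0 < a) (h2a : 2 * a < δ ^ 2)
    (hstat : StationaryIn p V δ) (hfin : wt p V {q | sq V q < δ ^ 2} ≠ ∞) (hlam : 0 < lam) :
    (p : ℝ) * ∫ q in {q | sq V q < 2 * a}, phi a (sq V q) * ‖(V q.1).ht q.2‖ ^ 2 ∂(wt p V) ≤
      56 * a * (lam * (wt p V).real {q | sq V q < 2 * a} +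
        (∫ q in {q | sq V q < 2 * a}, (1 - kap V q ^ 2 / sq V q) ∂(wt p V)) / lam) := by
  set S := {q | sq V q < 2 * a} with hS
  have hSm : MeasurableSet S := measurableSet_lt (meas_sq V) measurable_const
  have hSf : wt p V S ≠ ∞ := ne_top_of_le_ne_top hfin (measure_mono fun q hq => lt_trans hq h2a)
  have hμf : IsFiniteMeasure ((wt p V).restrict S) :=
    ⟨by rw [Measure.restrict_apply_univ]; exact hSf.lt_top⟩
  have hU0 : ∀ q : ℕ × ℝ, 0 ≤ sq V q := fun q => by rw [sq]; positivity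
  obtain ⟨hIi, hI0⟩ := int_II p V ha h2a hstat hfin
  have h1 : Integrable (fun q => phi a (sq V q) * ‖(V q.1).ht q.2‖ ^ 2) ((wt p V).restrict S) := by
    refine Integrable.of_bound (C := 4 * (2 * a)) (((phi_cont a).measurable.comp (meas_sq V)).mul
      ((meas_ht V).norm.pow_const 2)).aestronglyMeasurable ?_
    filter_upwards [ae_restrict_mem hSm] with q hq
    have hy : ‖(V q.1).ht q.2‖ ^ 2 ≤ sq V q := by
      rw [sq]; nlinarith [_root_.sq_nonneg ((V q.1).rad q.2)]
    rw [norm_mul, Real.norm_of_nonneg (phi_nonneg _ _), Real.norm_of_nonneg (_root_.sq_nonneg _)]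
    exact mul_le_mul (phi_le ha (hU0 q)) (hy.trans (le_of_lt hq)) (by positivity) (by norm_num)
  have h2 : Integrable (fun q => 1 - kap V q ^ 2 / sq V q) ((wt p V).restrict S) := by
    refine Integrable.of_bound (C := 1) (measurable_const.sub
      (((meas_kap V).pow_const 2).div (meas_sq V))).aestronglyMeasurable ?_
    refine Eventually.of_forall fun q => ?_
    have h3 : kap V q ^ 2 / sq V q ≤ 1 := div_le_one_of_le₀ (kap_sq_le V q) (hU0 q)
    have h4 : 0 ≤ kap V q ^ 2 / sq V q := div_nonneg (_root_.sq_nonneg _) (hU0 q)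
    rw [Real.norm_of_nonneg (by linarith)]; linarith
  have h3 : Integrable (fun q => 56 * a * (lam + (1 - kap V q ^ 2 / sq V q) / lam))
      ((wt p V).restrict S) := ((integrable_const lam).add (h2.div_const lam)).const_mul _
  have hle : ∫ q in S, (p * (phi a (sq V q) * ‖(V q.1).ht q.2‖ ^ 2) -
      56 * a * (lam + (1 - kap V q ^ 2 / sq V q) / lam)) ∂(wt p V) ≤
      ∫ q in S, II p V (phi a) (phi' a) q ∂(wt p V) := by
    refine integral_mono_ae ((h1.const_mul _).sub h3) hIi ?_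
    filter_upwards [ae_restrict_mem hSm, ae_restrict_of_ae (ae_good p V)] with q hq hg
    have hU : 0 < sq V q := by have := hg.2.1; rw [sq]; positivity
    exact II_lower p V (phi a) (phi' a) q hg.2.2 hU ha hlam hq (phi_nonneg _ _)
      (phi_le ha hU.le) (phi'_le ha hU.le)
  rw [hI0, integral_sub (h1.const_mul _) h3, integral_const_mul, integral_const_mul,
    integral_add (integrable_const lam) (h2.div_const lam), integral_div] at hle
  have h5 : ∫ _ in S, lam ∂(wt p V) = lam * (wt p V).real S := by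
    rw [setIntegral_const, smul_eq_mul, mul_comm]
  rw [h5] at hle
  linarith

/-- the excess of the whole ball -/
def Ex0 (p : ℕ) (V : ℕ → Piece n) (b : ℝ) : ℝ≥0∞ :=
  ∫⁻ q in {q | sq V q < b},
    ENNReal.ofReal (sq V q ^ (-(((p : ℝ) + 1) / 2) - 1) * (sq V q - kap V q ^ 2)) ∂(wt p V)

lemma Ex0_le (p : ℕ) (V : ℕ → Piece n) {b : ℝ} (hb : 0 < b) (c : ℝ≥0∞)
    (h : ∀ a, 0 < a → a ≤ b → Ex p V a b ≤ c) : Ex0 p V b ≤ c := by
  set s : ℕ → Set (ℕ × ℝ) := fun k => {q | b / (k + 1) ≤ sq V q ∧ sq V q < b} with hs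
  have hset : ({q | sq V q < b} : Set (ℕ × ℝ)) =ᵐ[wt p V] ⋃ k, s k := by
    filter_upwards [ae_good p V] with q hg
    have hU : 0 < sq V q := by have := hg.2.1; rw [sq]; positivity
    refine propext ⟨fun hq => ?_, fun hq => ?_⟩
    · obtain ⟨k, hk⟩ := exists_nat_gt (b / sq V q)
      refine mem_iUnion.2 ⟨k, ?_, hq⟩
      rw [div_le_iff₀ (by positivity)]
      rw [div_lt_iff₀ hU] at hk
      nlinarith
    · obtain ⟨k, hk⟩ := mem_iUnion.1 hq
      exact hk.2
  have hmono : Monotone s := by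
    intro k l hkl q hq
    refine ⟨le_trans ?_ hq.1, hq.2⟩
    have h1 : (k : ℝ) ≤ l := by exact_mod_cast hkl
    exact div_le_div_of_nonneg_left hb.le (by positivity) (by linarith)
  rw [Ex0, setLIntegral_congr hset, setLIntegral_iUnion_of_directed _ hmono.directed_le]
  refine iSup_le fun k => h (b / (k + 1)) (by positivity) (div_le_self hb.le ?_)
  have : (0 : ℝ) ≤ k := Nat.cast_nonneg k
  linarith

lemma nu_le (p : ℕ) (V : ℕ → Piece n) {b : ℝ} (hb : 0 < b) :
    ∫⁻ q in {q | sq V q < b}, ENNReal.ofReal (1 - kap V q ^ 2 / sq V q) ∂(wt p V) ≤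
      ENNReal.ofReal (b ^ (((p : ℝ) + 1) / 2)) * Ex0 p V b := by
  have hSm : MeasurableSet {q | sq V q < b} := measurableSet_lt (meas_sq V) measurable_const
  rw [Ex0, ← lintegral_const_mul' _ _ ENNReal.ofReal_ne_top]
  refine lintegral_mono_ae ?_
  filter_upwards [ae_restrict_mem hSm, ae_restrict_of_ae (ae_good p V)] with q hq hg
  have hU : 0 < sq V q := by have := hg.2.1; rw [sq]; positivity
  rw [← ENNReal.ofReal_mul (by positivity)]
  refine ENNReal.ofReal_le_ofReal ?_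
  have e0 : 0 ≤ sq V q - kap V q ^ 2 := sub_nonneg.2 (kap_sq_le V q)
  have e1 : 1 - kap V q ^ 2 / sq V q = (sq V q - kap V q ^ 2) / sq V q := by field_simp
  have e2 : sq V q ^ (-(((p : ℝ) + 1) / 2) - 1) = sq V q ^ (-(((p : ℝ) + 1) / 2)) / sq V q := by
    rw [Real.rpow_sub_one hU.ne']
  have e3 : 1 ≤ b ^ (((p : ℝ) + 1) / 2) * sq V q ^ (-(((p : ℝ) + 1) / 2)) := by
    rw [Real.rpow_neg hU.le, ← div_eq_mul_inv, one_le_div (Real.rpow_pos_of_pos hU _)]
    exact Real.rpow_le_rpow hU.le (le_of_lt hq) (by positivity)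
  rw [e1, e2]
  have e4 : 0 ≤ (sq V q - kap V q ^ 2) / sq V q := div_nonneg e0 hU.le
  calc (sq V q - kap V q ^ 2) / sq V q = 1 * ((sq V q - kap V q ^ 2) / sq V q) := (one_mul _).symm
    _ ≤ (b ^ (((p : ℝ) + 1) / 2) * sq V q ^ (-(((p : ℝ) + 1) / 2))) *
        ((sq V q - kap V q ^ 2) / sq V q) := mul_le_mul_of_nonneg_right e3 e4
    _ = _ := by ring

end Pool.Agent.VREV
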