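import Pool.Agent.VREV.Radial

/-!
The first variation formula for the field `ψ(|z|²) (0, y)`.
-/

open MeasureTheory Set Filter Topology
open scoped RealInnerProductSpace ENNReal

noncomputable section

namespace Pool.Agent.VREV

variable {n : ℕ}

lemma quad_vert {p : ℕ} (F : H (p + 1) × H n → ℝ) (F' : H (p + 1) × H n →L[ℝ] ℝ)
    (z : H (p + 1) × H n) (v : H (p + 1)) (w : H n) (hF : HasFDerivAt F F' z) :
    quad (fun z : H (p + 1) × H n => ((0 : H (p + 1)), F z • z.2)) z v w =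
      F z * ‖w‖ ^ 2 + F' (v, w) * ⟪z.2, w⟫ := by
  have hX : HasFDerivAt (fun z : H (p + 1) × H n => ((0 : H (p + 1)), F z • z.2))
      ((0 : H (p + 1) × H n →L[ℝ] H (p + 1)).prod
        (F z • ContinuousLinearMap.snd ℝ (H (p + 1)) (H n) + F'.smulRight z.2)) z :=
    (hasFDerivAt_const _ _).prodMk (hF.smul hasFDerivAt_snd)
  rw [quad, hX.fderiv]
  simp only [ContinuousLinearMap.prod_apply, zero_apply, inner_zero_left, zero_add,
    add_apply, smul_apply, ContinuousLinearMap.coe_snd',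
    ContinuousLinearMap.smulRight_apply, inner_add_left, inner_smul_left,
    real_inner_self_eq_norm_sq, conj_trivial]

lemma divT_vert {p : ℕ} (F : H (p + 1) × H n → ℝ) (F' : H (p + 1) × H n →L[ℝ] ℝ)
    (z : H (p + 1) × H n) (ω : H (p + 1)) (c : ℝ) (s : H n) (hF : HasFDerivAt F F' z) :
    divT (fun a => (EuclideanSpace.single a 1 : H (p + 1)))
      (fun z : H (p + 1) × H n => ((0 : H (p + 1)), F z • z.2)) z ω c s =
      F z * ‖s‖ ^ 2 + F' (c • ω, s) * ⟪z.2, s⟫ := by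
  rw [divT, quad_vert F F' _ _ _ hF, quad_vert F F' _ _ _ hF]
  simp_rw [quad_vert F F' _ _ _ hF]
  simp

lemma stat_vert (p : ℕ) (V : ℕ → Piece n) {δ b : ℝ} (hb : b < δ ^ 2)
    (hstat : StationaryIn p V δ) (ψ h : ℝ → ℝ) (hc : Continuous h)
    (hψ : ∀ v, HasDerivAt ψ (h v) v) (h0 : ∀ v, b ≤ v → ψ v = 0) :
    ∫ q, (ψ (sq V q) * ‖(V q.1).sin q.2‖ ^ 2 +
      2 * (h (sq V q) * (kap V q * ⟪(V q.1).ht q.2, (V q.1).sin q.2⟫))) ∂(wt p V) = 0 := by
  have hψc : ContDiff ℝ 1 ψ := by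
    rw [contDiff_one_iff_deriv]
    refine ⟨fun v => (hψ v).differentiableAt, ?_⟩
    have : deriv ψ = h := funext fun v => (hψ v).deriv
    rw [this]; exact hc
  have hQc : ContDiff ℝ 1 (fun z : H (p + 1) × H n => ‖z.1‖ ^ 2 + ‖z.2‖ ^ 2) :=
    (contDiff_fst.norm_sq ℝ).add (contDiff_snd.norm_sq ℝ)
  let F : H (p + 1) × H n → ℝ := fun z => ψ (‖z.1‖ ^ 2 + ‖z.2‖ ^ 2)
  have hFc : ContDiff ℝ 1 F := hψc.comp hQc
  have hXc : ContDiff ℝ 1 (fun z : H (p + 1) × H n => ((0 : H (p + 1)), F z • z.2)) :=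
    contDiff_const.prodMk (hFc.smul contDiff_snd)
  have hclosed : IsClosed {z : H (p + 1) × H n | ‖z.1‖ ^ 2 + ‖z.2‖ ^ 2 ≤ b} :=
    isClosed_le hQc.continuous continuous_const
  have hsupp : Function.support (fun z : H (p + 1) × H n => ((0 : H (p + 1)), F z • z.2)) ⊆
      {z | ‖z.1‖ ^ 2 + ‖z.2‖ ^ 2 ≤ b} := by
    intro z hz
    by_contra hz'
    simp only [mem_ofPred_eq, not_le] at hz'
    exact hz (by simp [F, h0 _ hz'.le])
  have hbdd : {z : H (p + 1) × H n | ‖z.1‖ ^ 2 + ‖z.2‖ ^ 2 ≤ b} ⊆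
      Metric.closedBall 0 (√b) := by
    intro z hz
    simp only [mem_ofPred_eq] at hz
    rw [mem_closedBall_zero_iff, Prod.norm_def, max_le_iff]
    constructor
    · exact Real.le_sqrt_of_sq_le (by nlinarith [_root_.sq_nonneg ‖z.2‖])
    · exact Real.le_sqrt_of_sq_le (by nlinarith [_root_.sq_nonneg ‖z.1‖])
  have hcomp : IsCompact {z : H (p + 1) × H n | ‖z.1‖ ^ 2 + ‖z.2‖ ^ 2 ≤ b} :=
    (isCompact_closedBall 0 _).of_isClosed_subset hclosed hbdd
  have hcs : HasCompactSupport (fun z : H (p + 1) × H n => ((0 : H (p + 1)), F z • z.2)) :=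
    HasCompactSupport.of_support_subset_isCompact hcomp hsupp
  have hts : tsupport (fun z : H (p + 1) × H n => ((0 : H (p + 1)), F z • z.2)) ⊆
      {z | ‖z.1‖ ^ 2 + ‖z.2‖ ^ 2 < δ ^ 2} := by
    refine (closure_minimal hsupp hclosed).trans fun z hz => ?_
    simp only [mem_ofPred_eq] at hz ⊢
    exact hz.trans_lt hb
  have key := hstat _ ⟨hXc, hcs, hts⟩
  set C := ((volume : Measure (H (p + 1))).toSphere).real univ with hC
  have hCpos : C ≠ 0 := by
    have h1 : (volume : Measure (H (p + 1))).toSphere univ ≠ 0 := by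
      rw [Measure.toSphere_apply_univ]
      simp only [ne_eq, mul_eq_zero, Nat.cast_eq_zero, not_or]
      exact ⟨by simp, (Metric.measure_ball_pos _ _ one_pos).ne'⟩
    rw [hC, Measure.real]
    exact (ENNReal.toReal_pos h1 (measure_ne_top _ _)).ne'
  have hae : ∀ q : ℕ × ℝ, sphDiv (volume : Measure (H (p + 1)))
      (fun a => EuclideanSpace.single a 1)
      (fun z : H (p + 1) × H n => ((0 : H (p + 1)), F z • z.2)) ((V q.1).rad q.2) ((V q.1).ht q.2)
      ((V q.1).cos q.2) ((V q.1).sin q.2) =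
      C * (ψ (sq V q) * ‖(V q.1).sin q.2‖ ^ 2 +
      2 * (h (sq V q) * (kap V q * ⟪(V q.1).ht q.2, (V q.1).sin q.2⟫))) := by
    intro q
    set r := (V q.1).rad q.2 with hr'
    set y := (V q.1).ht q.2 with hy'
    set c := (V q.1).cos q.2 with hc'
    set s := (V q.1).sin q.2 with hs'
    have hconst : ∀ ω : Metric.sphere (0 : H (p + 1)) 1,
        divT (fun a => (EuclideanSpace.single a 1 : H (p + 1)))
          (fun z : H (p + 1) × H n => ((0 : H (p + 1)), F z • z.2))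
          (r • (ω : H (p + 1)), y) ω c s =
          ψ (sq V q) * ‖s‖ ^ 2 + 2 * (h (sq V q) * (kap V q * ⟪y, s⟫)) := by
      intro ω
      have hω : ‖(ω : H (p + 1))‖ = 1 := by simp
      have hQ : ‖r • (ω : H (p + 1))‖ ^ 2 + ‖y‖ ^ 2 = sq V q := by
        rw [norm_smul, hω, mul_one, Real.norm_eq_abs, sq_abs]; rfl
      have hQ' : HasFDerivAt (fun z : H (p + 1) × H n => ‖z.1‖ ^ 2 + ‖z.2‖ ^ 2)
          ((2 • (innerSL ℝ (r • (ω : H (p + 1))))).comp (ContinuousLinearMap.fst ℝ _ _) +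
            (2 • (innerSL ℝ y)).comp (ContinuousLinearMap.snd ℝ _ _)) (r • (ω : H (p + 1)), y) := by
        refine HasFDerivAt.add ?_ ?_
        · exact HasFDerivAt.comp (g := fun x : H (p + 1) => ‖x‖ ^ 2) (f := Prod.fst)
            (r • (ω : H (p + 1)), y) (hasStrictFDerivAt_norm_sq _).hasFDerivAt hasFDerivAt_fst
        · exact HasFDerivAt.comp (g := fun x : H n => ‖x‖ ^ 2) (f := Prod.snd)
            (r • (ω : H (p + 1)), y) (hasStrictFDerivAt_norm_sq _).hasFDerivAt hasFDerivAt_snd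
      have hF' := (hψ (‖r • (ω : H (p + 1))‖ ^ 2 + ‖y‖ ^ 2)).comp_hasFDerivAt
        (r • (ω : H (p + 1)), y) hQ'
      rw [divT_vert F _ _ ω c s hF']
      simp only [F, add_apply, smul_apply, ContinuousLinearMap.comp_apply,
        ContinuousLinearMap.coe_fst', ContinuousLinearMap.coe_snd', innerSL_apply_apply,
        smul_eq_mul, hQ, inner_smul_left, inner_smul_right, conj_trivial,
        real_inner_self_eq_norm_sq, hω, nsmul_eq_mul, Nat.cast_ofNat]
      have hk : kap V q = r * c + ⟪y, s⟫ := rfl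
      rw [hk]
      ring
    simp_rw [sphDiv, hconst]
    rw [integral_const, smul_eq_mul]
  rw [integral_congr_ae (Eventually.of_forall hae), integral_const_mul] at key
  exact (mul_eq_zero.1 key).resolve_left hCpos

end Pool.Agent.VREV
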