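import Pool.Agent.VREV.Main
import Pool.Agent.VREX.Vert

open MeasureTheory Set Filter Topology
open scoped RealInnerProductSpace ENNReal

noncomputable section

namespace Pool.Agent.VREV

variable {n : ℕ}

/-- the integrand of the first variation of the field `φ(|z|²) (|y|² z - |z|² (0, y))` -/
def II (p : ℕ) (V : ℕ → Piece n) (φ h : ℝ → ℝ) (q : ℕ × ℝ) : ℝ :=
  (p + 1) * (φ (sq V q) * ‖(V q.1).ht q.2‖ ^ 2) +
    2 * (h (sq V q) * (kap V q ^ 2 * ‖(V q.1).ht q.2‖ ^ 2)) -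
    sq V q * φ (sq V q) * ‖(V q.1).sin q.2‖ ^ 2 -
    2 * (sq V q * h (sq V q) * (kap V q * ⟪(V q.1).ht q.2, (V q.1).sin q.2⟫))

/-- pointwise lower bound -/
lemma II_lower (p : ℕ) (V : ℕ → Piece n) (φ h : ℝ → ℝ) (q : ℕ × ℝ)
    (hs : (V q.1).speed q.2 ≠ 0) (hU : 0 < sq V q) {a lam : ℝ} (ha : 0 < a) (hlam : 0 < lam)
    (hUa : sq V q < 2 * a) (hφ0 : 0 ≤ φ (sq V q)) (hφ4 : φ (sq V q) ≤ 4)
    (hh : |h (sq V q)| ≤ 4 / a) :
    p * (φ (sq V q) * ‖(V q.1).ht q.2‖ ^ 2) -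
      56 * a * (lam + (1 - kap V q ^ 2 / sq V q) / lam) ≤ II p V φ h q := by
  have h1 := unit_of_ne _ _ hs
  have hK : kap V q = (V q.1).rad q.2 * (V q.1).cos q.2 + ⟪(V q.1).ht q.2, (V q.1).sin q.2⟫ := rfl
  have hUe : sq V q = (V q.1).rad q.2 ^ 2 + ‖(V q.1).ht q.2‖ ^ 2 := rfl
  have hκ := kap_sq_le V q
  rw [II]
  set y := (V q.1).ht q.2
  set s := (V q.1).sin q.2
  set r := (V q.1).rad q.2
  set c := (V q.1).cos q.2
  set κ := kap V q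
  set U := sq V q
  set f := φ U
  set g := h U
  set t := κ / U with ht
  set ν := 1 - κ ^ 2 / U with hν
  have hν0 : 0 ≤ ν := by
    rw [hν, sub_nonneg, div_le_one hU]; exact hκ
  have e1 : ‖s - t • y‖ ^ 2 = ‖s‖ ^ 2 - 2 * t * ⟪y, s⟫ + t ^ 2 * ‖y‖ ^ 2 := by
    rw [norm_sub_sq_real, inner_smul_right, norm_smul, real_inner_comm, mul_pow, Real.norm_eq_abs,
      sq_abs]; ring
  have e2 : t * U = κ := by rw [ht]; field_simp
  have e3 : ‖s - t • y‖ ^ 2 + (c - t * r) ^ 2 = ν := by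
    have : ‖s - t • y‖ ^ 2 + (c - t * r) ^ 2 = (c ^ 2 + ‖s‖ ^ 2) - 2 * t * κ + t * (t * U) := by
      rw [e1, hK, hUe]; ring
    rw [this, h1, e2, hν]
    have : t * κ = κ ^ 2 / U := by rw [ht]; ring
    linarith
  set w := s - t • y with hw
  have hw2 : ‖w‖ ^ 2 ≤ ν := by nlinarith [_root_.sq_nonneg (c - t * r)]
  have hy2 : ‖y‖ ^ 2 ≤ U := by nlinarith [_root_.sq_nonneg r]
  -- the two expansions
  have hys : ⟪y, s⟫ = t * ‖y‖ ^ 2 + ⟪y, w⟫ := by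
    rw [hw, inner_sub_right, inner_smul_right, real_inner_self_eq_norm_sq]; ring
  have hss : ‖s‖ ^ 2 = t ^ 2 * ‖y‖ ^ 2 + 2 * t * ⟪y, w⟫ + ‖w‖ ^ 2 := by
    have : s = t • y + w := by rw [hw]; abel
    rw [this, norm_add_sq_real, inner_smul_left, norm_smul, mul_pow, Real.norm_eq_abs, sq_abs]
    simp only [conj_trivial]
    ring
  -- bounds, `m = √ν`
  set m := √ν with hm
  have hm0 : 0 ≤ m := Real.sqrt_nonneg _
  have hm2 : m ^ 2 = ν := Real.sq_sqrt hν0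
  have hm1 : m ≤ 1 := by
    rw [hm, Real.sqrt_le_one]
    rw [hν]; have : 0 ≤ κ ^ 2 / U := by positivity
    linarith
  have hwm : ‖w‖ ≤ m := Real.le_sqrt_of_sq_le hw2
  set ρ := √U with hρ
  have hρ0 : 0 < ρ := Real.sqrt_pos.2 hU
  have hρ2 : ρ ^ 2 = U := Real.sq_sqrt hU.le
  have hyρ : ‖y‖ ≤ ρ := Real.le_sqrt_of_sq_le hy2
  have hκρ : |κ| ≤ ρ := Real.abs_le_sqrt hκ
  have hyw : |⟪y, w⟫| ≤ ρ * m :=
    (abs_real_inner_le_norm y w).trans (mul_le_mul hyρ hwm (norm_nonneg _) hρ0.le)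
  have hκyw : |κ * ⟪y, w⟫| ≤ U * m := by
    rw [abs_mul, ← hρ2]
    calc |κ| * |⟪y, w⟫| ≤ ρ * (ρ * m) := mul_le_mul hκρ hyw (abs_nonneg _) hρ0.le
      _ = _ := by ring
  have hmν : ν ≤ m := by rw [← hm2]; nlinarith
  -- the difference
  have hdiff : (p + 1) * (f * ‖y‖ ^ 2) + 2 * (g * (κ ^ 2 * ‖y‖ ^ 2)) - U * f * ‖s‖ ^ 2 -
      2 * (U * g * (κ * ⟪y, s⟫)) = p * (f * ‖y‖ ^ 2) + f * (ν * ‖y‖ ^ 2) -
        f * (2 * (κ * ⟪y, w⟫) + U * ‖w‖ ^ 2) - 2 * g * (U * (κ * ⟪y, w⟫)) := by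
    rw [hss, hys]
    have e4 : U * t ^ 2 = 1 - ν := by
      rw [hν, ht]; field_simp; ring
    have e5 : U * t = κ := by rw [mul_comm]; exact e2
    have e6 : U * f * (t ^ 2 * ‖y‖ ^ 2 + 2 * t * ⟪y, w⟫ + ‖w‖ ^ 2) =
        f * ((U * t ^ 2) * ‖y‖ ^ 2 + 2 * ((U * t) * ⟪y, w⟫) + U * ‖w‖ ^ 2) := by ring
    have e7 : U * g * (κ * (t * ‖y‖ ^ 2 + ⟪y, w⟫)) =
        g * (κ * (U * t) * ‖y‖ ^ 2 + U * (κ * ⟪y, w⟫)) := by ring
    rw [e6, e7, e4, e5]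
    ring
  rw [hdiff]
  have hfν : 0 ≤ f * (ν * ‖y‖ ^ 2) := by positivity
  have hb1 : f * (2 * (κ * ⟪y, w⟫) + U * ‖w‖ ^ 2) ≤ 24 * a * m := by
    have h2 : 2 * (κ * ⟪y, w⟫) + U * ‖w‖ ^ 2 ≤ 3 * (U * m) := by
      have := (le_abs_self _).trans hκyw
      have h3 : U * ‖w‖ ^ 2 ≤ U * m := mul_le_mul_of_nonneg_left (hw2.trans hmν) hU.le
      linarith
    have h4 : 3 * (U * m) ≤ 6 * a * m := by nlinarith
    calc f * (2 * (κ * ⟪y, w⟫) + U * ‖w‖ ^ 2) ≤ f * (6 * a * m) :=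
          mul_le_mul_of_nonneg_left (h2.trans h4) hφ0
      _ ≤ 4 * (6 * a * m) := mul_le_mul_of_nonneg_right hφ4 (by positivity)
      _ = _ := by ring
  have hb2 : 2 * g * (U * (κ * ⟪y, w⟫)) ≤ 32 * a * m := by
    have h2 : |2 * g * (U * (κ * ⟪y, w⟫))| ≤ 2 * (4 / a) * (2 * a * (2 * a * m)) := by
      rw [abs_mul, abs_mul, abs_mul, abs_two, abs_of_pos hU]
      refine mul_le_mul (mul_le_mul_of_nonneg_left hh zero_le_two) ?_ (by positivity) (by positivity)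
      refine mul_le_mul hUa.le (hκyw.trans ?_) (abs_nonneg _) (by positivity)
      exact mul_le_mul_of_nonneg_right hUa.le hm0
    refine (le_abs_self _).trans (h2.trans (le_of_eq ?_))
    field_simp
    ring
  have hmlam : m ≤ lam + ν / lam := by
    rw [← hm2]
    have h2 : m * lam ≤ lam ^ 2 + m ^ 2 := by nlinarith [_root_.sq_nonneg (m - lam)]
    have h3 : m = (m * lam) / lam := by field_simp
    rw [h3]
    have h4 : lam + m ^ 2 / lam = (lam ^ 2 + m ^ 2) / lam := by field_simp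
    have h5 : m * lam / lam = m := by field_simp
    rw [h5, h4, le_div_iff₀ hlam]
    exact h2
  have h6 : 56 * a * m ≤ 56 * a * (lam + ν / lam) := mul_le_mul_of_nonneg_left hmlam (by positivity)
  linarith

end Pool.Agent.VREV
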