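import Pool.Agent.VREX.Auto

open MeasureTheory Set Filter Topology
open scoped RealInnerProductSpace ENNReal

noncomputable section

namespace Pool.Agent.VREV

variable {n : ℕ}

lemma pos_sq_deriv (x : ℝ) : HasDerivAt (fun x : ℝ => max x 0 ^ 2) (2 * max x 0) x := by
  rcases lt_trichotomy x 0 with h | h | h
  · have h1 : (fun x : ℝ => max x 0 ^ 2) =ᶠ[𝓝 x] fun _ => 0 := by
      filter_upwards [Iio_mem_nhds h] with z hz
      rw [max_eq_right (le_of_lt hz)]; norm_num
    rw [max_eq_right h.le, mul_zero]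
    exact (hasDerivAt_const x (0 : ℝ)).congr_of_eventuallyEq h1
  · subst h
    rw [max_self, mul_zero]
    rw [hasDerivAt_iff_isLittleO]
    simp only [max_self, ne_eq, OfNat.ofNat_ne_zero, not_false_eq_true, zero_pow, sub_zero,
      smul_zero]
    have h1 : (fun x : ℝ => max x 0 ^ 2) =O[𝓝 0] fun x : ℝ => x ^ 2 := by
      refine Asymptotics.IsBigO.of_bound 1 (Eventually.of_forall fun z => ?_)
      rw [Real.norm_of_nonneg (by positivity), Real.norm_of_nonneg (by positivity), one_mul,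
        ← sq_abs z]
      exact pow_le_pow_left₀ (le_max_right _ _) (max_le (le_abs_self z) (abs_nonneg z)) 2
    exact h1.trans_isLittleO (Asymptotics.isLittleO_pow_id (by norm_num : 1 < 2))
  · have h1 : (fun x : ℝ => max x 0 ^ 2) =ᶠ[𝓝 x] fun x => x ^ 2 := by
      filter_upwards [Ioi_mem_nhds h] with z hz
      rw [max_eq_left (le_of_lt hz)]
    rw [max_eq_left h.le]
    have h2 : HasDerivAt (fun x : ℝ => x ^ 2) (2 * x) x := by
      simpa using hasDerivAt_pow 2 x
    exact h2.congr_of_eventuallyEq h1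

lemma cs_le_one' (V : ℕ → Piece n) (q : ℕ × ℝ) :
    (V q.1).cos q.2 ^ 2 + ‖(V q.1).sin q.2‖ ^ 2 ≤ 1 := by
  by_cases h : (V q.1).speed q.2 = 0
  · simp [Piece.cos, Piece.sin, h]
  · exact (unit_of_ne _ _ h).le

/-- the cut-off -/
def phi (a v : ℝ) : ℝ := max (2 * a - v) 0 ^ 2 / a ^ 2

/-- its derivative -/
def phi' (a v : ℝ) : ℝ := -(2 * max (2 * a - v) 0) / a ^ 2

lemma phi_deriv (a v : ℝ) : HasDerivAt (phi a) (phi' a v) v := by
  have h1 : HasDerivAt (fun v : ℝ => 2 * a - v) (-1) v := by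
    simpa using (hasDerivAt_id v).const_sub (2 * a)
  have h2 := ((pos_sq_deriv (2 * a - v)).comp v h1).div_const (a ^ 2)
  have e : phi' a v = 2 * max (2 * a - v) 0 * -1 / a ^ 2 := by rw [phi']; ring
  rw [e]; exact h2

lemma phi'_cont (a : ℝ) : Continuous (phi' a) := by unfold phi'; fun_prop

lemma phi_cont (a : ℝ) : Continuous (phi a) := by unfold phi; fun_prop

lemma phi_zero {a v : ℝ} (hv : 2 * a ≤ v) : phi a v = 0 := by
  rw [phi, max_eq_right (by linarith)]; norm_num

lemma phi'_zero {a v : ℝ} (hv : 2 * a ≤ v) : phi' a v = 0 := by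
  rw [phi', max_eq_right (by linarith)]; norm_num

lemma phi_nonneg (a v : ℝ) : 0 ≤ phi a v := by rw [phi]; positivity

lemma phi_le {a v : ℝ} (ha : 0 < a) (hv : 0 ≤ v) : phi a v ≤ 4 := by
  rw [phi, div_le_iff₀ (by positivity)]
  have h1 : max (2 * a - v) 0 ≤ 2 * a := max_le (by linarith) (by linarith)
  have h2 := pow_le_pow_left₀ (le_max_right _ _) h1 2
  nlinarith

lemma phi'_le {a v : ℝ} (ha : 0 < a) (hv : 0 ≤ v) : |phi' a v| ≤ 4 / a := by
  have h1 : max (2 * a - v) 0 ≤ 2 * a := max_le (by linarith) (by linarith)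
  have h0 : 0 ≤ max (2 * a - v) 0 := le_max_right _ _
  rw [phi', abs_div, abs_neg, abs_of_nonneg (by positivity), abs_of_nonneg (by positivity : (0:ℝ) ≤ a ^ 2),
    div_le_div_iff₀ (by positivity) ha]
  nlinarith

lemma one_le_phi {a v : ℝ} (ha : 0 < a) (hv : v ≤ a) : 1 ≤ phi a v := by
  rw [phi, le_div_iff₀ (by positivity), one_mul]
  exact pow_le_pow_left₀ ha.le (le_max_of_le_left (by linarith)) 2

/-- the first variation of the field `φ(|z|²) (|y|² z - |z|² (0, y))` -/
lemma int_II (p : ℕ) (V : ℕ → Piece n) {δ a : ℝ} (ha : 0 < a) (h2a : 2 * a < δ ^ 2)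
    (hstat : StationaryIn p V δ) (hfin : wt p V {q | sq V q < δ ^ 2} ≠ ∞) :
    IntegrableOn (II p V (phi a) (phi' a)) {q | sq V q < 2 * a} (wt p V) ∧
      ∫ q in {q | sq V q < 2 * a}, II p V (phi a) (phi' a) q ∂(wt p V) = 0 := by
  set S := {q | sq V q < 2 * a} with hS
  have hSm : MeasurableSet S := measurableSet_lt (meas_sq V) measurable_const
  have hSf : wt p V S ≠ ∞ := ne_top_of_le_ne_top hfin (measure_mono fun q hq => lt_trans hq h2a)
  have hμf : IsFiniteMeasure ((wt p V).restrict S) :=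
    ⟨by rw [Measure.restrict_apply_univ]; exact hSf.lt_top⟩
  have hU0 : ∀ q : ℕ × ℝ, 0 ≤ sq V q := fun q => by rw [sq]; positivity
  -- the first field
  have key1 := stat_weight p V h2a hstat (fun y : H n => ‖y‖ ^ 2) (contDiff_norm_sq ℝ) (phi a)
    (phi' a) (phi'_cont a) (phi_deriv a) (fun v hv => phi_zero hv)
  -- the second field
  have hψd : ∀ v, HasDerivAt (fun v => v * phi a v) (1 * phi a v + v * phi' a v) v := fun v =>
    (hasDerivAt_id v).mul (phi_deriv a v)
  have key2 := stat_vert p V h2a hstat (fun v => v * phi a v)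
    (fun v => 1 * phi a v + v * phi' a v)
    (((continuous_const.mul (phi_cont a))).add (continuous_id.mul (phi'_cont a))) hψd
    (fun v hv => by simp [phi_zero hv])
  set A : ℕ × ℝ → ℝ := fun q => (p + 1) * (phi a (sq V q) * ‖(V q.1).ht q.2‖ ^ 2) +
      2 * (phi' a (sq V q) * (kap V q ^ 2 * ‖(V q.1).ht q.2‖ ^ 2)) +
      phi a (sq V q) * (2 * ⟪(V q.1).ht q.2, (V q.1).sin q.2⟫ * kap V q) with hA
  set B : ℕ × ℝ → ℝ := fun q => sq V q * phi a (sq V q) * ‖(V q.1).sin q.2‖ ^ 2 +
      2 * ((1 * phi a (sq V q) + sq V q * phi' a (sq V q)) *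
        (kap V q * ⟪(V q.1).ht q.2, (V q.1).sin q.2⟫)) with hB
  have key1' : ∫ q, A q ∂(wt p V) = 0 := by
    rw [← key1]
    refine integral_congr_ae (Eventually.of_forall fun q => ?_)
    simp only [hA]
    rw [(hasStrictFDerivAt_norm_sq ((V q.1).ht q.2)).hasFDerivAt.fderiv]
    simp only [smul_apply, innerSL_apply_apply, nsmul_eq_mul, Nat.cast_ofNat]
  have hAz : ∀ q, q ∉ S → A q = 0 := by
    intro q hq
    have h1 : 2 * a ≤ sq V q := not_lt.1 hq
    simp only [hA, phi_zero h1, phi'_zero h1]; ring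
  have hBz : ∀ q, q ∉ S → B q = 0 := by
    intro q hq
    have h1 : 2 * a ≤ sq V q := not_lt.1 hq
    simp only [hB, phi_zero h1, phi'_zero h1]; ring
  have k1 : ∫ q in S, A q ∂(wt p V) = 0 := by
    rw [setIntegral_eq_integral_of_forall_compl_eq_zero hAz]; exact key1'
  have k2 : ∫ q in S, B q ∂(wt p V) = 0 := by
    rw [setIntegral_eq_integral_of_forall_compl_eq_zero hBz]; exact key2
  -- measurability and bounds
  have hys : Measurable fun q : ℕ × ℝ => ⟪(V q.1).ht q.2, (V q.1).sin q.2⟫ :=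
    (meas_ht V).inner (𝕜 := ℝ) (meas_sin V)
  have hf : Measurable fun q => phi a (sq V q) := (phi_cont a).measurable.comp (meas_sq V)
  have hg : Measurable fun q => phi' a (sq V q) := (phi'_cont a).measurable.comp (meas_sq V)
  have hy2 : Measurable fun q : ℕ × ℝ => ‖(V q.1).ht q.2‖ ^ 2 := (meas_ht V).norm.pow_const 2
  have hs2 : Measurable fun q : ℕ × ℝ => ‖(V q.1).sin q.2‖ ^ 2 := (meas_sin V).norm.pow_const 2
  have hAm : Measurable A :=
    (((hf.mul hy2).const_mul _).add ((hg.mul (((meas_kap V).pow_const 2).mul hy2)).const_mul _)).add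
      (hf.mul ((hys.const_mul 2).mul (meas_kap V)))
  have hBm : Measurable B :=
    (((meas_sq V).mul hf).mul hs2).add
      (((((hf.const_mul 1).add ((meas_sq V).mul hg))).mul ((meas_kap V).mul hys)).const_mul 2)
  have hsin : ∀ q : ℕ × ℝ, ‖(V q.1).sin q.2‖ ≤ 1 := by
    intro q
    have h1 := cs_le_one' V q
    nlinarith [_root_.sq_nonneg ((V q.1).cos q.2), norm_nonneg ((V q.1).sin q.2)]
  have hbd : ∀ q ∈ S, |A q| ≤ (p + 1) * (4 * (2 * a)) + 2 * (4 / a * (2 * a * (2 * a))) +
      4 * (2 * (2 * a)) ∧ |B q| ≤ 2 * a * 4 * 1 + 2 * ((1 * 4 + 2 * a * (4 / a)) * (2 * a)) := by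
    intro q hq
    have hUa : sq V q ≤ 2 * a := le_of_lt hq
    have hy : ‖(V q.1).ht q.2‖ ^ 2 ≤ sq V q := by rw [sq]; nlinarith [_root_.sq_nonneg ((V q.1).rad q.2)]
    have hκ := kap_sq_le V q
    have hf4 := phi_le (v := sq V q) ha (hU0 q)
    have hf0 := phi_nonneg a (sq V q)
    have hg4 := phi'_le (v := sq V q) ha (hU0 q)
    have hρ : √(sq V q) ^ 2 = sq V q := Real.sq_sqrt (hU0 q)
    have hyρ : ‖(V q.1).ht q.2‖ ≤ √(sq V q) := Real.le_sqrt_of_sq_le hy
    have hκρ : |kap V q| ≤ √(sq V q) := Real.abs_le_sqrt hκ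
    have hκys : |kap V q * ⟪(V q.1).ht q.2, (V q.1).sin q.2⟫| ≤ 2 * a := by
      rw [abs_mul]
      calc |kap V q| * |⟪(V q.1).ht q.2, (V q.1).sin q.2⟫| ≤ √(sq V q) * (√(sq V q) * 1) :=
            mul_le_mul hκρ ((abs_real_inner_le_norm _ _).trans
              (mul_le_mul hyρ (hsin q) (norm_nonneg _) (Real.sqrt_nonneg _))) (abs_nonneg _)
              (Real.sqrt_nonneg _)
        _ = sq V q := by rw [mul_one, ← _root_.sq, hρ]
        _ ≤ 2 * a := hUa
    have hs1 : ‖(V q.1).sin q.2‖ ^ 2 ≤ 1 := pow_le_one₀ (norm_nonneg _) (hsin q)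
    constructor
    · refine (abs_add_le _ _).trans (add_le_add ((abs_add_le _ _).trans (add_le_add ?_ ?_)) ?_)
      · rw [abs_mul, abs_mul, abs_of_nonneg hf0, abs_of_nonneg (by positivity : (0:ℝ) ≤ p + 1),
          abs_of_nonneg (_root_.sq_nonneg ‖(V q.1).ht q.2‖)]
        exact mul_le_mul_of_nonneg_left (mul_le_mul hf4 (hy.trans hUa) (by positivity)
          (by norm_num)) (by positivity)
      · rw [abs_mul, abs_mul, abs_mul, abs_two, abs_of_nonneg (_root_.sq_nonneg (kap V q)),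
          abs_of_nonneg (_root_.sq_nonneg ‖(V q.1).ht q.2‖)]
        exact mul_le_mul_of_nonneg_left (mul_le_mul hg4 (mul_le_mul (hκ.trans hUa) (hy.trans hUa)
          (by positivity) (by positivity)) (by positivity) (by positivity)) zero_le_two
      · have e : phi a (sq V q) * (2 * ⟪(V q.1).ht q.2, (V q.1).sin q.2⟫ * kap V q) =
            phi a (sq V q) * (2 * (kap V q * ⟪(V q.1).ht q.2, (V q.1).sin q.2⟫)) := by ring
        rw [e, abs_mul, abs_mul, abs_two, abs_of_nonneg hf0]
        exact mul_le_mul hf4 (mul_le_mul_of_nonneg_left hκys zero_le_two) (by positivity)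
          (by norm_num)
    · refine (abs_add_le _ _).trans (add_le_add ?_ ?_)
      · rw [abs_mul, abs_mul, abs_of_nonneg (hU0 q), abs_of_nonneg hf0,
          abs_of_nonneg (_root_.sq_nonneg ‖(V q.1).sin q.2‖)]
        exact mul_le_mul (mul_le_mul hUa hf4 hf0 (by positivity)) hs1 (by positivity)
          (by positivity)
      · rw [abs_mul, abs_mul, abs_two]
        refine mul_le_mul_of_nonneg_left (mul_le_mul ?_ hκys (abs_nonneg _) (by positivity))
          zero_le_two
        refine (abs_add_le _ _).trans (add_le_add ?_ ?_)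
        · rw [abs_mul, abs_one, abs_of_nonneg hf0]; linarith
        · rw [abs_mul, abs_of_nonneg (hU0 q)]
          exact mul_le_mul hUa hg4 (abs_nonneg _) (by positivity)
  have hAi : Integrable A ((wt p V).restrict S) := by
    refine Integrable.of_bound (C := (p + 1) * (4 * (2 * a)) + 2 * (4 / a * (2 * a * (2 * a))) +
      4 * (2 * (2 * a))) hAm.aestronglyMeasurable ?_
    filter_upwards [ae_restrict_mem hSm] with q hq
    rw [Real.norm_eq_abs]; exact (hbd q hq).1
  have hBi : Integrable B ((wt p V).restrict S) := by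
    refine Integrable.of_bound (C := 2 * a * 4 * 1 + 2 * ((1 * 4 + 2 * a * (4 / a)) * (2 * a)))
      hBm.aestronglyMeasurable ?_
    filter_upwards [ae_restrict_mem hSm] with q hq
    rw [Real.norm_eq_abs]; exact (hbd q hq).2
  have hII : II p V (phi a) (phi' a) = fun q => A q - B q := by
    funext q
    simp only [hA, hB, II]; ring
  rw [hII]
  exact ⟨hAi.sub hBi, by rw [integral_sub hAi hBi, k1, k2, sub_zero]⟩

end Pool.Agent.VREV
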