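import Pool.Agent.VREW.Upper
import Pool.Agent.VREW.Height

/-!
# Varifolds of revolution with high order of contact with a plane
-/

open MeasureTheory Set Filter Topology
open scoped RealInnerProductSpace ENNReal

noncomputable section

namespace Pool.Agent.VREV

variable {n : ℕ}

/-- the density at `0` -/
def K0 (p : ℕ) (V : ℕ → Piece n) (b : ℝ) : ℝ≥0∞ := ⨅ v : Ioo (0 : ℝ) b, Th p V v

lemma Th_mono (p : ℕ) (V : ℕ → Piece n) {δ a b : ℝ} (hb : b < δ ^ 2)
    (hstat : StationaryIn p V δ) (hfin : wt p V {q | sq V q < δ ^ 2} ≠ ∞) (ha : 0 < a)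
    (hab : a ≤ b) : Th p V a ≤ Th p V b := by
  rw [← Th_add p V hb hstat hfin ha hab]; exact le_self_add

lemma K0_le (p : ℕ) (V : ℕ → Piece n) {b v : ℝ} (hv : 0 < v) (hvb : v < b) :
    K0 p V b ≤ Th p V v := iInf_le (fun v : Ioo (0 : ℝ) b => Th p V v) ⟨v, hv, hvb⟩

lemma K0_ne_top (p : ℕ) (V : ℕ → Piece n) {δ b : ℝ} (hb0 : 0 < b) (hb : b < δ ^ 2)
    (hfin : wt p V {q | sq V q < δ ^ 2} ≠ ∞) : K0 p V b ≠ ∞ :=
  ne_top_of_le_ne_top (Th_ne_top p V hfin (by linarith : b / 2 ≤ δ ^ 2))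
    (K0_le p V (half_pos hb0) (half_lt_self hb0))

/-- near `0` the density is close to its infimum -/
lemma near_inf (p : ℕ) (V : ℕ → Piece n) {δ b : ℝ} (hb0 : 0 < b) (hb : b < δ ^ 2)
    (hstat : StationaryIn p V δ) (hfin : wt p V {q | sq V q < δ ^ 2} ≠ ∞) {η : ℝ} (hη : 0 < η) :
    ∃ v₀, 0 < v₀ ∧ v₀ < b ∧ ∀ v, 0 < v → v ≤ v₀ → Th p V v < K0 p V b + ENNReal.ofReal η := by
  have h1 : K0 p V b < K0 p V b + ENNReal.ofReal η :=
    ENNReal.lt_add_right (K0_ne_top p V hb0 hb hfin) (by rwa [ENNReal.ofReal_ne_zero_iff])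
  obtain ⟨⟨v₀, h0, hvb⟩, h2⟩ := iInf_lt_iff.1 (show (⨅ v : Ioo (0 : ℝ) b, Th p V v) < _ from h1)
  exact ⟨v₀, h0, hvb, fun v hv hv0 =>
    (Th_mono p V (hvb.trans hb) hstat hfin hv hv0).trans_lt h2⟩

/-- there are small spheres met by a number of points close to the density -/
lemma near (p : ℕ) (V : ℕ → Piece n) {δ b : ℝ} (hδ : 0 < δ) (hb0 : 0 < b) (hb : b < δ ^ 2)
    (hstat : StationaryIn p V δ) (hfin : wt p V {q | sq V q < δ ^ 2} ≠ ∞)
    (hcontact : ∀ ε > 0, ∃ᶠ ρ in 𝓝[>] (0 : ℝ), ∫⁻ q in {q | sq V q < ρ ^ 2},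
      ENNReal.ofReal (‖(V q.1).ht q.2‖ ^ 2) ∂(wt p V) ≤ ENNReal.ofReal (ε * ρ ^ (p + 3)))
    {ε v₁ : ℝ} (hε : 0 < ε) (hv1 : 0 < v₁) :
    ∃ v, 0 < v ∧ v < v₁ ∧ ∃ k : ℕ, Th p V v ≤ k ∧ (k : ℝ≥0∞) < Th p V v + ENNReal.ofReal ε := by
  obtain ⟨ε₀, hε0, hno⟩ := no_outside p
  set C : ℝ := 2 * (1 + |(1 : ℝ)|) ^ p with hC
  have hC0 : 0 < C := by positivity
  set D : ℝ := (8⁻¹ : ℝ) ^ (-(((p : ℝ) + 1) / 2)) with hD
  have hD0 : 0 < D := by positivity
  set η : ℝ := ε / (4 * C) with hη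
  have hη0 : 0 < η := by positivity
  set ε₁ : ℝ := ε / (32 * C * (p + 1) * D) with hε1
  have hε10 : 0 < ε₁ := by positivity
  obtain ⟨v₀, hv00, hv0b, hv0⟩ := near_inf p V hb0 hb hstat hfin hη0
  set w : ℝ := min (min v₀ v₁) (δ ^ 2) with hw
  have hw0 : 0 < w := lt_min (lt_min hv00 hv1) (by positivity)
  have hev : ∀ᶠ ρ in 𝓝[>] (0 : ℝ), 0 < ρ ∧ ρ < √w := by
    filter_upwards [Ioo_mem_nhdsGT (Real.sqrt_pos.2 hw0)] with ρ hρ using hρ
  obtain ⟨ρ, hρ, hρ0, hρw⟩ :=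
    ((hcontact (min ε₀ ε₁) (lt_min hε0 hε10)).and_eventually hev).exists
  have hρ2 : ρ ^ 2 < w := by
    rw [← Real.lt_sqrt hρ0.le]; exact hρw
  have hρδ : ρ ≤ δ := by
    refine abs_le_of_sq_le_sq' ?_ hδ.le |>.2
    exact hρ2.le.trans (min_le_right _ _)
  have hp3 : 0 < ρ ^ (p + 3) := by positivity
  have hC1 : Ct p V (ρ ^ 2) ≤ ENNReal.ofReal (min ε₀ ε₁ * ρ ^ (p + 3)) := hρ
  have hcone := hno n V δ hstat hfin ρ hρ0 hρδ (hC1.trans (ENNReal.ofReal_le_ofReal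
    (mul_le_mul_of_nonneg_right (min_le_left _ _) hp3.le)))
  set a : ℝ := ρ ^ 2 / 8 with ha
  have ha0 : 0 < a := by positivity
  have h2a : 2 * a = ρ ^ 2 / 4 := by rw [ha]; ring
  have hρ22 : 0 < ρ ^ 2 := by positivity
  have hwv : w ≤ min v₀ v₁ := min_le_left _ _
  have hav0 : 2 * a ≤ v₀ := by
    rw [h2a]; have := hwv.trans (min_le_left _ _); linarith
  have hav1 : 2 * a < v₁ := by
    rw [h2a]; have := hwv.trans (min_le_right _ _); linarith
  have hab : 2 * a ≤ b := hav0.trans hv0b.le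
  rw [← h2a] at hcone
  -- the excess is small
  have hEx : Ex p V a (2 * a) ≤ ENNReal.ofReal η := by
    have h1 := Th_add p V (a := a) (b := 2 * a) (hab.trans_lt hb) hstat hfin ha0 (by linarith)
    have h2 : Th p V a + ENNReal.ofReal ((p : ℝ) + 1) * Ex p V a (2 * a) ≤
        Th p V a + ENNReal.ofReal η := by
      rw [h1]
      exact (hv0 _ (by linarith) hav0).le.trans (add_le_add (K0_le p V ha0 (by linarith)) le_rfl)
    have h3 := (ENNReal.add_le_add_iff_left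
      (Th_ne_top p V hfin (v := a) (by linarith))).1 h2
    refine le_trans ?_ h3
    have : (1 : ℝ≥0∞) ≤ ENNReal.ofReal ((p : ℝ) + 1) := by
      rw [ENNReal.one_le_ofReal]
      have : (0 : ℝ) ≤ p := Nat.cast_nonneg p
      linarith
    calc Ex p V a (2 * a) = 1 * Ex p V a (2 * a) := (one_mul _).symm
      _ ≤ _ := mul_le_mul' this le_rfl
  -- the contact term is small
  have hCt : Ct p V (2 * a) ≤ ENNReal.ofReal (ε₁ * ρ ^ (p + 3)) := by
    have h1 : Ct p V (2 * a) ≤ Ct p V (ρ ^ 2) :=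
      lintegral_mono_set fun q (hq : sq V q < 2 * a) =>
        (show sq V q < ρ ^ 2 from hq.trans_le (by rw [h2a]; linarith))
    exact (h1.trans hC1).trans (ENNReal.ofReal_le_ofReal
      (mul_le_mul_of_nonneg_right (min_le_right _ _) hp3.le))
  have hpow : a ^ (-(((p : ℝ) + 1) / 2)) = (ρ ^ (p + 1))⁻¹ * D := by
    have h1 : a = ρ ^ 2 * 8⁻¹ := by rw [ha]; ring
    rw [h1, Real.mul_rpow (by positivity) (by positivity), rpow_half p (by positivity),
      Real.sqrt_sq hρ0.le]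
  have hp0 : (0 : ℝ) ≤ p := Nat.cast_nonneg p
  have hsmall : ENNReal.ofReal (2 * (1 + |(1 : ℝ)|) ^ p) *
      (ENNReal.ofReal (2 * a) * Ex p V a (2 * a) +
      ENNReal.ofReal (p * a ^ (-(((p : ℝ) + 1) / 2))) * Ct p V (2 * a)) <
        ENNReal.ofReal ε * ENNReal.ofReal a := by
    have h1 : ENNReal.ofReal C * (ENNReal.ofReal (2 * a) * Ex p V a (2 * a) +
        ENNReal.ofReal (p * a ^ (-(((p : ℝ) + 1) / 2))) * Ct p V (2 * a)) ≤
        ENNReal.ofReal C * (ENNReal.ofReal (2 * a) * ENNReal.ofReal η +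
        ENNReal.ofReal (p * a ^ (-(((p : ℝ) + 1) / 2))) * ENNReal.ofReal (ε₁ * ρ ^ (p + 3))) :=
      mul_le_mul' le_rfl (add_le_add (mul_le_mul' le_rfl hEx) (mul_le_mul' le_rfl hCt))
    refine lt_of_le_of_lt h1 ?_
    have hapos : 0 ≤ (p : ℝ) * a ^ (-(((p : ℝ) + 1) / 2)) :=
      mul_nonneg hp0 (Real.rpow_nonneg ha0.le _)
    rw [← ENNReal.ofReal_mul (by positivity), ← ENNReal.ofReal_mul hapos,
      ← ENNReal.ofReal_add (by positivity) (by positivity), ← ENNReal.ofReal_mul hC0.le,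
      ← ENNReal.ofReal_mul hε.le, ENNReal.ofReal_lt_ofReal_iff (by positivity)]
    have e1 : C * (2 * a * η) = ε * a / 2 := by rw [hη]; field_simp; ring
    have e2 : C * (p * a ^ (-(((p : ℝ) + 1) / 2)) * (ε₁ * ρ ^ (p + 3))) =
        (p / (p + 1)) * (ε * a / 4) := by
      rw [hpow]
      have : ρ ^ (p + 3) = ρ ^ (p + 1) * (8 * a) := by rw [ha]; ring
      rw [this, hε1]
      field_simp
      ring
    have e3 : (p : ℝ) / (p + 1) ≤ 1 := (div_le_one (by positivity)).2 (by linarith)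
    have e4 : 0 < ε * a := by positivity
    rw [mul_add, e1, e2]
    nlinarith
  obtain ⟨v, hv1', hv2', hv3, hv4⟩ := good_radius_ann p V hb hstat hfin hcone ha0 hab hsmall
  have hTv : Th p V v ≠ ∞ := Th_ne_top p V hfin (by linarith)
  obtain ⟨k, hk⟩ := cnt_nat V v (ne_top_of_lt hv4)
  exact ⟨v, ha0.trans_le hv1', hv2'.trans hav1, k, hk ▸ hv3, hk ▸ hv4⟩

/-- the density is attained on a small ball -/
lemma attained (p : ℕ) (V : ℕ → Piece n) {δ b : ℝ} (hδ : 0 < δ) (hb0 : 0 < b) (hb : b < δ ^ 2)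
    (hstat : StationaryIn p V δ) (hfin : wt p V {q | sq V q < δ ^ 2} ≠ ∞)
    (hcontact : ∀ ε > 0, ∃ᶠ ρ in 𝓝[>] (0 : ℝ), ∫⁻ q in {q | sq V q < ρ ^ 2},
      ENNReal.ofReal (‖(V q.1).ht q.2‖ ^ 2) ∂(wt p V) ≤ ENNReal.ofReal (ε * ρ ^ (p + 3))) :
    ∃ u, 0 < u ∧ u < b ∧ Th p V u = K0 p V b := by
  have hK := K0_ne_top p V hb0 hb hfin
  have hex : ∃ c : ℕ, K0 p V b ≤ c := by
    obtain ⟨c, hc⟩ := ENNReal.exists_nat_gt hK
    exact ⟨c, hc.le⟩
  classical
  set c := Nat.find hex with hc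
  have hKc : K0 p V b ≤ c := Nat.find_spec hex
  have hmin : ∀ k : ℕ, K0 p V b ≤ k → c ≤ k := fun k hk => Nat.find_min' hex hk
  -- small spheres
  have hkey : ∀ ε : ℝ, 0 < ε → ∃ v, 0 < v ∧ v < b ∧ ∃ k : ℕ, Th p V v ≤ k ∧ c ≤ k ∧
      (k : ℝ≥0∞) < K0 p V b + ENNReal.ofReal ε + ENNReal.ofReal ε := by
    intro ε hε
    obtain ⟨v₀, hv00, hv0b, hv0⟩ := near_inf p V hb0 hb hstat hfin hε
    obtain ⟨v, hv, hvv, k, hk1, hk2⟩ := near p V hδ hb0 hb hstat hfin hcontact hε hv00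
    refine ⟨v, hv, hvv.trans hv0b, k, hk1, hmin k ((K0_le p V hv (hvv.trans hv0b)).trans hk1), ?_⟩
    exact hk2.trans_le (add_le_add (hv0 v hv hvv.le).le le_rfl)
  have hKe : K0 p V b = c := by
    refine le_antisymm hKc (not_lt.1 fun hlt => ?_)
    have h1 : (K0 p V b).toReal < c := by
      have := (ENNReal.toReal_lt_toReal hK (ENNReal.natCast_ne_top c)).2 hlt
      simpa using this
    obtain ⟨v, hv, hvb, k, hk1, hk2, hk3⟩ := hkey ((c - (K0 p V b).toReal) / 2) (by linarith)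
    have h2 : K0 p V b + ENNReal.ofReal ((c - (K0 p V b).toReal) / 2) +
        ENNReal.ofReal ((c - (K0 p V b).toReal) / 2) = c := by
      have h0 : 0 ≤ (c - (K0 p V b).toReal) / 2 := by linarith
      have h3 : K0 p V b = ENNReal.ofReal (K0 p V b).toReal := (ENNReal.ofReal_toReal hK).symm
      rw [add_assoc, ← ENNReal.ofReal_add h0 h0]
      conv_lhs => rw [h3]
      rw [ENNReal.toReal_ofReal ENNReal.toReal_nonneg, ← ENNReal.ofReal_add ENNReal.toReal_nonneg (by linarith), ← ENNReal.ofReal_natCast]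
      congr 1; ring
    rw [h2] at hk3
    have : k < c := by exact_mod_cast hk3
    omega
  obtain ⟨v, hv, hvb, k, hk1, hk2, hk3⟩ := hkey (1 / 4) (by norm_num)
  have h4 : k < c + 1 := by
    have h5 : (k : ℝ≥0∞) < (c : ℝ≥0∞) + 1 := by
      refine hk3.trans_le ?_
      rw [hKe, add_assoc, ← ENNReal.ofReal_add (by norm_num) (by norm_num)]
      refine add_le_add le_rfl ?_
      rw [← ENNReal.ofReal_one]
      exact ENNReal.ofReal_le_ofReal (by norm_num)
    exact_mod_cast h5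
  refine ⟨v, hv, hvb, le_antisymm (hk1.trans ?_) (K0_le p V hv hvb)⟩
  rw [hKe]
  exact_mod_cast Nat.lt_succ_iff.1 h4

/-- Let `V` be a stationary integral varifold of revolution about `0`, of dimension `p + 1`. If
along a sequence of radii `ρ → 0` the integral of the squared height over the ball of radius `ρ` is
`o(ρ ^ (p + 3))`, then near `0` the varifold is contained in the plane. -/
theorem of_contact (p n : ℕ) (V : ℕ → Piece n) (δ : ℝ) (hδ : 0 < δ)
    (hstat : StationaryIn p V δ) (hfin : wt p V {q | sq V q < δ ^ 2} < ∞)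
    (hcontact : ∀ ε > 0, ∃ᶠ ρ in 𝓝[>] (0 : ℝ), ∫⁻ q in {q | sq V q < ρ ^ 2},
      ENNReal.ofReal (‖(V q.1).ht q.2‖ ^ 2) ∂(wt p V) ≤ ENNReal.ofReal (ε * ρ ^ (p + 3))) :
    ∃ ρ > 0, ∀ᵐ q ∂(wt p V), sq V q < ρ ^ 2 → (V q.1).ht q.2 = 0 := by
  set b : ℝ := δ ^ 2 / 2 with hbd
  have hb0 : 0 < b := by positivity
  have hb : b < δ ^ 2 := by rw [hbd]; exact half_lt_self (by positivity)
  obtain ⟨u, hu0, hub, hu⟩ := attained p V hδ hb0 hb hstat hfin.ne hcontact
  have hEx : ∀ a, 0 < a → a ≤ u → Ex p V a u = 0 := by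
    intro a ha hau
    have h1 := Th_add p V (hub.trans hb) hstat hfin.ne ha hau
    have h2 : Th p V a = Th p V u := le_antisymm
      (Th_mono p V (hub.trans hb) hstat hfin.ne ha hau) (hu ▸ K0_le p V ha (hau.trans_lt hub))
    have h3 : Th p V u + ENNReal.ofReal ((p : ℝ) + 1) * Ex p V a u = Th p V u + 0 := by
      rw [add_zero, ← h2, h1, h2]
    have h4 := (ENNReal.add_right_inj (Th_ne_top p V hfin.ne (v := u) (hub.trans hb).le)).1 h3
    rcases mul_eq_zero.1 h4 with h5 | h5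
    · rw [ENNReal.ofReal_eq_zero] at h5
      have : (0 : ℝ) ≤ p := Nat.cast_nonneg p
      linarith
    · exact h5
  have hk : ∀ᵐ q ∂(wt p V), sq V q < u → kap V q ^ 2 = sq V q := by
    have h1 : ∀ k : ℕ, ∀ᵐ q ∂(wt p V), u / (k + 2) ≤ sq V q ∧ sq V q < u →
        kap V q ^ 2 = sq V q := by
      intro k
      have hk0 : (0 : ℝ) < k + 2 := by positivity
      have h2 := hEx (u / (k + 2)) (by positivity) (div_le_self hu0.le (by
        have : (0 : ℝ) ≤ k := Nat.cast_nonneg k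
        linarith))
      have hset : MeasurableSet {q | u / (k + 2) ≤ sq V q ∧ sq V q < u} :=
        (measurableSet_le measurable_const (meas_sq V)).inter
          (measurableSet_lt (meas_sq V) measurable_const)
      have hm : Measurable fun q : ℕ × ℝ => ENNReal.ofReal
          (Pool.Agent.VREV.sq V q ^ (-(((p : ℝ) + 1) / 2) - 1) *
            (Pool.Agent.VREV.sq V q - kap V q ^ 2)) :=
        ENNReal.measurable_ofReal.comp
          (((meas_sq V).pow_const _).mul ((meas_sq V).sub ((meas_kap V).pow_const 2)))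
      rw [Ex, lintegral_eq_zero_iff hm] at h2
      have h3 := (ae_restrict_iff' hset).1 h2
      filter_upwards [h3] with q hq hq'
      have h4 := hq hq'
      have hU : 0 < sq V q := lt_of_lt_of_le (by positivity) hq'.1
      simp only [Pi.zero_apply, ENNReal.ofReal_eq_zero] at h4
      have h5 : 0 < sq V q ^ (-(((p : ℝ) + 1) / 2) - 1) := Real.rpow_pos_of_pos hU _
      have h6 : sq V q - kap V q ^ 2 ≤ 0 := by
        by_contra hc
        push Not at hc
        exact absurd h4 (not_le.2 (mul_pos h5 hc))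
      exact le_antisymm (kap_sq_le V q) (by linarith)
    filter_upwards [ae_all_iff.2 h1, ae_good p V] with q hq hg hqu
    have hU : 0 < sq V q := by have := hg.2.1; rw [Pool.Agent.VREV.sq]; positivity
    obtain ⟨k, hk⟩ := exists_nat_gt (u / sq V q)
    refine hq k ⟨?_, hqu⟩
    rw [div_le_iff₀ (by positivity)]
    rw [div_lt_iff₀ hU] at hk
    nlinarith
  -- the second application
  set b' : ℝ := u / 2 with hb'
  have hb'0 : 0 < b' := by positivity
  have hb'u : b' < u := half_lt_self hu0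
  have hzero : Ct p V b' * ENNReal.ofReal (b' ^ (-(((p : ℝ) + 3) / 2))) = 0 := by
    refine le_antisymm (ENNReal.le_of_forall_pos_le_add fun ε hε _ => ?_) zero_le
    rw [zero_add]
    have hev : ∀ᶠ ρ in 𝓝[>] (0 : ℝ), 0 < ρ ∧ ρ < √b' := by
      filter_upwards [Ioo_mem_nhdsGT (Real.sqrt_pos.2 hb'0)] with ρ hρ using hρ
    obtain ⟨ρ, hρ, hρ0, hρw⟩ := ((hcontact ε (by exact_mod_cast hε)).and_eventually hev).exists
    have hρ2 : ρ ^ 2 < b' := by
      rw [← Real.lt_sqrt hρ0.le]; exact hρw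
    rw [← second p V (hub.trans hb).le hstat hfin.ne hk (pow_pos hρ0 2) hρ2.le hb'u]
    have hpow : (ρ ^ 2) ^ (-(((p : ℝ) + 3) / 2)) = (ρ ^ (p + 3))⁻¹ := by
      have h1 := rpow_half (p + 2) (U := ρ ^ 2) (by positivity)
      rw [Real.sqrt_sq hρ0.le] at h1
      rw [← h1]; congr 2; push_cast; ring
    rw [hpow]
    have h2 : Ct p V (ρ ^ 2) ≤ ENNReal.ofReal (ε * ρ ^ (p + 3)) := hρ
    refine (mul_le_mul' h2 le_rfl).trans ?_
    rw [← ENNReal.ofReal_mul (by positivity), mul_assoc, mul_inv_cancel₀ (by positivity), mul_one,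
      ENNReal.ofReal_coe_nnreal]
  have hCt0 : Ct p V b' = 0 := by
    rcases mul_eq_zero.1 hzero with h | h
    · exact h
    · rw [ENNReal.ofReal_eq_zero] at h
      exact absurd (Real.rpow_pos_of_pos hb'0 _) (not_lt.2 h)
  refine ⟨√b', Real.sqrt_pos.2 hb'0, ?_⟩
  rw [Real.sq_sqrt hb'0.le]
  have hset : MeasurableSet {q | sq V q < b'} := measurableSet_lt (meas_sq V) measurable_const
  have hm : Measurable fun q : ℕ × ℝ => ENNReal.ofReal (‖(V q.1).ht q.2‖ ^ 2) :=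
    ENNReal.measurable_ofReal.comp ((meas_ht V).norm.pow_const 2)
  rw [Ct, lintegral_eq_zero_iff hm] at hCt0
  filter_upwards [(ae_restrict_iff' hset).1 hCt0] with q hq hq'
  have h4 := hq hq'
  simp only [Pi.zero_apply, ENNReal.ofReal_eq_zero] at h4
  have h5 : ‖(V q.1).ht q.2‖ ^ 2 = 0 := le_antisymm h4 (_root_.sq_nonneg _)
  rw [pow_eq_zero_iff two_ne_zero, norm_eq_zero] at h5
  exact h5

end Pool.Agent.VREV
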